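import Pool.Agent.TH330.CSR.Nec

/-!
MP_09693b_co, partial answer to Q1. `v k` stands for the number `v_{2k}` of vertices lying on
exactly `k` lines.
-/

set_option autoImplicit false
open scoped LinearAlgebra.Projectivization

namespace Pool.Agent.Results.MP_09693b_co.FewMultiplePoints

/-- Multiplicity vectors whose multiple points (at least three lines) have multiplicity at least
`V - 1`, where `V` is the number of multiple points: such a vector is realized by `n` lines of the
real projective plane, not all through one point, if and only if the two obvious conditions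
hold. -/
theorem result (n : ℕ) (hn : 3 ≤ n) (v : ℕ → ℕ)
    (h : ∀ i ∈ Finset.Icc 3 (n - 1), v i ≠ 0 → ∑ j ∈ Finset.Icc 3 (n - 1), v j ≤ i + 1) :
    (∃ A : Finset (ℙ ℝ (Fin 3 → ℝ)), A.card = n ∧
      (¬ ∃ p : ℙ ℝ (Fin 3 → ℝ), ∀ L ∈ A, ∑ i, p.rep i * L.rep i = 0) ∧
      ∀ k ∈ Finset.Icc 2 (n - 1), ({p : ℙ ℝ (Fin 3 → ℝ) |
        (A.filter (fun L => ∑ i, p.rep i * L.rep i = 0)).card = k}).ncard = v k) ↔
    (∑ i ∈ Finset.Icc 2 (n - 1), i.choose 2 * v i = n.choose 2 ∧
      ∑ i ∈ Finset.Icc 3 (n - 1), i * v i ≤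
        n + (∑ j ∈ Finset.Icc 3 (n - 1), v j).choose 2) :=
  Pool.TH330.CSR.iff_main n hn v h

end Pool.Agent.Results.MP_09693b_co.FewMultiplePoints
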